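import Pool.Agent.H597R2.SAP.Poly

/-!
Self-avoiding polygons on the square lattice: the critical series `∑ p_{2n} μ^{-2n}` converges.
-/

namespace Pool.Agent.Results.MP_376faf_co.CriticalSeries

open Filter Topology

/-- `ω` is a self-avoiding walk with `n` steps on `ℤ²`, started at the origin. -/
def IsSAW (n : ℕ) (ω : Fin (n + 1) → ℤ × ℤ) : Prop :=
  ω 0 = (0, 0) ∧
  (∀ i : Fin n, |(ω i.succ).1 - (ω i.castSucc).1| + |(ω i.succ).2 - (ω i.castSucc).2| = 1) ∧
  Function.Injective ω

/-- the number of `n`-step self-avoiding walks on `ℤ²` started at the origin -/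
noncomputable def C (n : ℕ) : ℕ := Nat.card {ω : Fin (n + 1) → ℤ × ℤ // IsSAW n ω}

/-- `f` runs once around a simple cycle of `ℤ²` with `m` edges, from the origin. -/
def IsPolygon (m : ℕ) (f : ZMod m → ℤ × ℤ) : Prop :=
  f 0 = 0 ∧ Function.Injective f ∧
    ∀ i : ZMod m, |(f (i + 1)).1 - (f i).1| + |(f (i + 1)).2 - (f i).2| = 1

/-- the number `p_{2n}` of self-avoiding polygons of perimeter `2n`, up to translation: a polygon
has `2n` possible starting points and `2` orientations. -/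
noncomputable def p (n : ℕ) : ℝ :=
  (Nat.card {f : ZMod (2 * n) → ℤ × ℤ // IsPolygon (2 * n) f} : ℝ) / (4 * (n : ℝ))

lemma C_eq (n : ℕ) : C n = H981.C n := rfl

lemma p_eq (n : ℕ) : p n = H597S.pp n := rfl

/-- **Theorem.** Let `μ` be the connective constant of `ℤ²` and `p_{2n}` the number of
self-avoiding polygons of perimeter `2n` up to translation.  The critical polygon series
converges: `∑_{n ≥ 2} p_{2n} μ^{-2n} ≤ μ`. -/
theorem result : ∃ μ : ℝ, 0 < μ ∧
    Tendsto (fun n : ℕ => (C n : ℝ) ^ (1 / (n : ℝ))) atTop (𝓝 μ) ∧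
    Summable (fun n : ℕ => p (n + 2) / μ ^ (2 * (n + 2))) ∧
    ∑' n : ℕ, p (n + 2) / μ ^ (2 * (n + 2)) ≤ μ := by
  refine ⟨H981.mu, H981.mu_pos, ?_, H597S.summable_pp, H597S.tsum_pp_le⟩
  have h := H981.tendsto_root
  simp only [H981.cr'_eq] at h
  exact h

end Pool.Agent.Results.MP_376faf_co.CriticalSeries
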